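import Mathlib
import Pool.Agent.Helper59.SymIneq

set_option autoImplicit false

namespace Pool.Agent.Results.MP_3b56a7_co.SymmetricCommon

open Finset

/-- `x` is a solution in `[n]` of `∑ a i * x i = 0`; the element `v : Fin n` stands for the
integer `v + 1` of `[n] = {1, …, n}`. -/
def IsSol {k : ℕ} (a : Fin k → ℤ) {n : ℕ} (x : Fin k → Fin n) : Prop :=
  ∑ i, a i * (((x i : ℕ) : ℤ) + 1) = 0

/-- `M_E(c)`: the number of monochromatic solutions in `[n]` under the colouring `c`. -/
noncomputable def monoCount {k : ℕ} (a : Fin k → ℤ) {n r : ℕ} (c : Fin n → Fin r) : ℕ :=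
  Nat.card {x : Fin k → Fin n // IsSol a x ∧ ∀ i j, c (x i) = c (x j)}

/-- `R_E(n,r)`: the expected number of monochromatic solutions for a uniformly random
colouring of `[n]` with `r` colours (the average of `monoCount` over all `r ^ n` colourings). -/
noncomputable def expectedMono {k : ℕ} (a : Fin k → ℤ) (n r : ℕ) : ℝ :=
  (∑ c : Fin n → Fin r, (monoCount a c : ℝ)) / (r : ℝ) ^ n

/-- `E` is `r`-common: every `r`-colouring of `[n]` has asymptotically at least as many
monochromatic solutions as the uniformly random colouring. -/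
def IsCommon (r : ℕ) {k : ℕ} (a : Fin k → ℤ) : Prop :=
  ∀ ε : ℝ, 0 < ε → ∃ N : ℕ, ∀ n : ℕ, N ≤ n → ∀ c : Fin n → Fin r,
    (1 - ε) * expectedMono a n r ≤ (monoCount a c : ℝ)

lemma monoCount_eq {k : ℕ} (a : Fin k → ℤ) {n r : ℕ} (c : Fin n → Fin r) :
    monoCount a c = (Finset.univ.filter (fun x : Fin k → Fin n =>
          ∑ i, a i * (((x i : ℕ) : ℤ) + 1) = 0 ∧ ∀ i j : Fin k, c (x i) = c (x j))).card := by
  classical
  unfold monoCount IsSol
  rw [Nat.card_eq_fintype_card, Fintype.card_subtype]

/-- colourings that are constant on an injective tuple are rare -/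
lemma card_mono_colourings {k n r : ℕ} (x : Fin (k + 1) → Fin n) (hx : Function.Injective x) :
    (Finset.univ.filter (fun c : Fin n → Fin r => ∀ i j, c (x i) = c (x j))).card * r ^ k
      ≤ r ^ n := by
  classical
  set f : Fin k → Fin n := fun i => x i.succ with hf
  have hfinj : Function.Injective f := fun i j h => Fin.succ_injective _ (hx h)
  have h0 : ¬ ∃ i, f i = x 0 := by
    rintro ⟨i, hi⟩
    exact (Fin.succ_ne_zero i) (hx hi)
  have hcard : ((Finset.univ.filter (fun c : Fin n → Fin r => ∀ i j, c (x i) = c (x j))) ×ˢ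
      (Finset.univ : Finset (Fin k → Fin r))).card ≤ (Finset.univ : Finset (Fin n → Fin r)).card := by
    apply Finset.card_le_card_of_injOn (fun p => Function.extend f p.2 p.1)
      (fun _ _ => Finset.mem_coe.2 (Finset.mem_univ _))
    rintro ⟨c, u⟩ hc ⟨c', u'⟩ hc' heq
    simp only [Finset.coe_product, Set.mem_prod, Finset.mem_coe, Finset.mem_filter,
      Finset.mem_univ, true_and, and_true] at hc hc'
    simp only at heq
    have hu : u = u' := by
      funext i
      have := congrFun heq (f i)
      rwa [hfinj.extend_apply, hfinj.extend_apply] at this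
    have hout : ∀ v, (¬ ∃ i, f i = v) → c v = c' v := by
      intro v hv
      have := congrFun heq v
      rwa [Function.extend_apply' _ _ _ hv, Function.extend_apply' _ _ _ hv] at this
    have hcc : c = c' := by
      funext v
      by_cases hv : ∃ i, f i = v
      · obtain ⟨i, rfl⟩ := hv
        rw [hc i.succ 0, hc' i.succ 0]
        exact hout _ h0
      · exact hout v hv
    rw [hu, hcc]
  rw [Finset.card_product] at hcard
  simpa using hcard

/-- non-injective solutions are rare -/
lemma card_noninj {k n : ℕ} (a : Fin k → ℤ) (ha : ∀ i, a i ≠ 0) (hk : 3 ≤ k) :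
    (Finset.univ.filter (fun x : Fin k → Fin n =>
      ∑ i, a i * (((x i : ℕ) : ℤ) + 1) = 0 ∧ ¬ Function.Injective x)).card
      ≤ k ^ 2 * n ^ (k - 2) := by
  classical
  have hsub : (Finset.univ.filter (fun x : Fin k → Fin n =>
      ∑ i, a i * (((x i : ℕ) : ℤ) + 1) = 0 ∧ ¬ Function.Injective x))
      ⊆ (Finset.univ.filter (fun p : Fin k × Fin k => p.1 ≠ p.2)).biUnion
        (fun p => Finset.univ.filter (fun x : Fin k → Fin n =>
          ∑ i, a i * (((x i : ℕ) : ℤ) + 1) = 0 ∧ x p.1 = x p.2)) := by
    intro x hx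
    simp only [Finset.mem_filter, Finset.mem_univ, true_and, Function.Injective, not_forall] at hx
    obtain ⟨h1, i, j, hij, hne⟩ := hx
    simp only [Finset.mem_biUnion, Finset.mem_filter, Finset.mem_univ, true_and]
    exact ⟨(i, j), hne, h1, hij⟩
  have hone : ∀ p : Fin k × Fin k, p.1 ≠ p.2 →
      (Finset.univ.filter (fun x : Fin k → Fin n =>
          ∑ i, a i * (((x i : ℕ) : ℤ) + 1) = 0 ∧ x p.1 = x p.2)).card ≤ n ^ (k - 2) := by
    rintro ⟨i, j⟩ hij
    simp only at hij ⊢
    obtain ⟨l, hl⟩ : ∃ l : Fin k, l ∉ ({i, j} : Finset (Fin k)) := by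
      by_contra hcon
      push Not at hcon
      have : (Finset.univ : Finset (Fin k)).card ≤ ({i, j} : Finset (Fin k)).card :=
        Finset.card_le_card (fun t _ => hcon t)
      rw [Finset.card_univ, Fintype.card_fin, Finset.card_pair hij] at this
      omega
    have hli : l ≠ i := by rintro rfl; exact hl (by simp)
    have hlj : l ≠ j := by rintro rfl; exact hl (by simp)
    have hc : Fintype.card ({t : Fin k // t ∉ ({j, l} : Finset (Fin k))} → Fin n) = n ^ (k - 2) := by
      rw [Fintype.card_fun, Fintype.card_fin]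
      congr 1
      rw [Fintype.card_subtype, Finset.filter_notMem_eq_sdiff, ← Finset.compl_eq_univ_sdiff,
        Finset.card_compl, Finset.card_pair hlj.symm, Fintype.card_fin]
    rw [← hc, ← Finset.card_univ]
    apply Finset.card_le_card_of_injOn
      (fun x => fun t : {t : Fin k // t ∉ ({j, l} : Finset (Fin k))} => x t.1)
      (fun _ _ => Finset.mem_coe.2 (Finset.mem_univ _))
    intro x hx y hy hxy
    simp only [Finset.coe_filter, Finset.mem_univ, true_and, Set.mem_ofPred_eq] at hx hy
    have hout : ∀ t, t ≠ j → t ≠ l → x t = y t := by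
      intro t htj htl
      exact congrFun hxy ⟨t, by simp [htj, htl]⟩
    have hj : x j = y j := by
      rw [← hx.2, ← hy.2]
      exact hout i hij (Ne.symm hli)
    have hne_l : ∀ t, t ≠ l → x t = y t := by
      intro t htl
      by_cases htj : t = j
      · rw [htj]; exact hj
      · exact hout t htj htl
    have hl' : x l = y l := by
      have h1 := hx.1
      have h2 := hy.1
      rw [← Finset.add_sum_erase _ _ (Finset.mem_univ l)] at h1 h2
      have h3 : ∑ t ∈ Finset.univ.erase l, a t * (((x t : ℕ) : ℤ) + 1)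
          = ∑ t ∈ Finset.univ.erase l, a t * (((y t : ℕ) : ℤ) + 1) := by
        apply Finset.sum_congr rfl
        intro t ht
        rw [hne_l t (Finset.ne_of_mem_erase ht)]
      rw [h3] at h1
      have h4 : a l * (((x l : ℕ) : ℤ) + 1) = a l * (((y l : ℕ) : ℤ) + 1) := by linarith
      have h5 := mul_left_cancel₀ (ha l) h4
      apply Fin.ext
      omega
    funext t
    by_cases htl : t = l
    · rw [htl]; exact hl'
    · exact hne_l t htl
  calc _ ≤ _ := Finset.card_le_card hsub
    _ ≤ ∑ p ∈ Finset.univ.filter (fun p : Fin k × Fin k => p.1 ≠ p.2), n ^ (k - 2) := by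
        refine le_trans Finset.card_biUnion_le ?_
        apply Finset.sum_le_sum
        intro p hp
        exact hone p (Finset.mem_filter.1 hp).2
    _ ≤ k ^ 2 * n ^ (k - 2) := by
        rw [Finset.sum_const, smul_eq_mul]
        apply Nat.mul_le_mul_right
        refine le_trans (Finset.card_filter_le _ _) ?_
        simp [sq]

/-- lower bound for the number of solutions -/
lemma card_sol_lower {k n : ℕ} (s : Fin k → ℤ) (hs : ∀ i, s i = 1 ∨ s i = -1)
    (hsum : ∑ i, s i = 0) :
    n ^ k ≤ (k * n + 1) * (Finset.univ.filter (fun x : Fin k → Fin n =>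
      ∑ i, s i * (((x i : ℕ) : ℤ) + 1) = 0)).card := by
  set N : ℕ := k * n + 1 with hN
  have : NeZero N := ⟨by omega⟩
  have h := Pool.Agent.Helper59.sym_count s hs hsum (fun _ : Fin n => (1 : ℝ)) N (by omega)
  have h2 : (n : ℝ) ^ k ≤ ∑ t : ZMod N,
      ‖Pool.Agent.Helper59.expSum N (fun _ : Fin n => ((1 : ℝ) : ℂ)) t‖ ^ k := by
    refine le_trans (le_of_eq ?_) (Finset.single_le_sum (f := fun t : ZMod N =>
      ‖Pool.Agent.Helper59.expSum N (fun _ : Fin n => ((1 : ℝ) : ℂ)) t‖ ^ k)
      (fun t _ => by positivity) (Finset.mem_univ (0 : ZMod N)))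
    simp [Pool.Agent.Helper59.expSum]
  rw [← h] at h2
  simp only [Finset.prod_const_one, Finset.sum_const, nsmul_eq_mul, mul_one] at h2
  exact_mod_cast h2

lemma expected_upper {k n r : ℕ} (a : Fin (k + 1) → ℤ) (hr : 1 ≤ r) :
    expectedMono a n r ≤
      ((Finset.univ.filter (fun x : Fin (k + 1) → Fin n =>
        ∑ i, a i * (((x i : ℕ) : ℤ) + 1) = 0)).card : ℝ) / (r : ℝ) ^ k
      + ((Finset.univ.filter (fun x : Fin (k + 1) → Fin n =>
        ∑ i, a i * (((x i : ℕ) : ℤ) + 1) = 0 ∧ ¬ Function.Injective x)).card : ℝ) := by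
  classical
  have hrpos : (0 : ℝ) < r := by exact_mod_cast hr
  unfold expectedMono
  rw [div_le_iff₀ (by positivity)]
  have e1 : ∑ c : Fin n → Fin r, (monoCount a c : ℝ)
      = ∑ x ∈ Finset.univ.filter (fun x : Fin (k + 1) → Fin n =>
        ∑ i, a i * (((x i : ℕ) : ℤ) + 1) = 0),
        ((Finset.univ.filter (fun c : Fin n → Fin r => ∀ i j, c (x i) = c (x j))).card : ℝ) := by
    simp only [monoCount_eq]
    have : ∀ c : Fin n → Fin r, ((Finset.univ.filter (fun x : Fin (k + 1) → Fin n =>
          ∑ i, a i * (((x i : ℕ) : ℤ) + 1) = 0 ∧ ∀ i j : Fin (k + 1), c (x i) = c (x j))).card : ℝ)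
        = ∑ x ∈ Finset.univ.filter (fun x : Fin (k + 1) → Fin n =>
        ∑ i, a i * (((x i : ℕ) : ℤ) + 1) = 0), (if (∀ i j, c (x i) = c (x j)) then (1 : ℝ) else 0) := by
      intro c
      rw [← Finset.filter_filter, Finset.card_filter]
      push_cast
      rfl
    simp only [this]
    rw [Finset.sum_comm]
    apply Finset.sum_congr rfl
    intro x _
    rw [Finset.card_filter]
    push_cast
    rfl
  rw [e1]
  have e2 : ∀ x ∈ Finset.univ.filter (fun x : Fin (k + 1) → Fin n =>
        ∑ i, a i * (((x i : ℕ) : ℤ) + 1) = 0),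
      ((Finset.univ.filter (fun c : Fin n → Fin r => ∀ i j, c (x i) = c (x j))).card : ℝ)
      ≤ (r : ℝ) ^ n * (1 / (r : ℝ) ^ k + (if ¬ Function.Injective x then 1 else 0)) := by
    intro x _
    by_cases hx : Function.Injective x
    · rw [if_neg (not_not.2 hx), add_zero, mul_one_div, le_div_iff₀ (by positivity)]
      exact_mod_cast card_mono_colourings x hx
    · rw [if_pos hx]
      have h1 : ((Finset.univ.filter (fun c : Fin n → Fin r => ∀ i j, c (x i) = c (x j))).card : ℝ)
          ≤ (r : ℝ) ^ n := by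
        have := Finset.card_filter_le (Finset.univ : Finset (Fin n → Fin r))
          (fun c : Fin n → Fin r => ∀ i j, c (x i) = c (x j))
        simp only [Finset.card_univ, Fintype.card_fun, Fintype.card_fin] at this
        exact_mod_cast this
      refine le_trans h1 ?_
      have : (0 : ℝ) ≤ 1 / (r : ℝ) ^ k := by positivity
      nlinarith [pow_pos hrpos n]
  refine le_trans (Finset.sum_le_sum e2) (le_of_eq ?_)
  rw [← Finset.mul_sum, Finset.sum_add_distrib, Finset.sum_const, nsmul_eq_mul,
    ← Finset.filter_filter, Finset.card_filter (fun x => ¬ Function.Injective x)]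
  push_cast
  ring

lemma isCommon_of_signs {k r : ℕ} (s : Fin k → ℤ) (hs : ∀ i, s i = 1 ∨ s i = -1)
    (hsum : ∑ i, s i = 0) (hk : 2 ≤ k) (hr : 1 ≤ r) : IsCommon r s := by
  classical
  have hs0 : ∀ i, s i ≠ 0 := by
    intro i; rcases hs i with h | h <;> rw [h] <;> decide
  have hrpos : (0 : ℝ) < r := by exact_mod_cast hr
  rcases Nat.lt_or_ge k 3 with hk3 | hk3
  · -- k = 2
    obtain rfl : k = 2 := by omega
    intro ε hε
    refine ⟨0, fun n _ c => ?_⟩
    have hall : ∀ c : Fin n → Fin r, monoCount s c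
        = (Finset.univ.filter (fun x : Fin 2 → Fin n =>
          ∑ i, s i * (((x i : ℕ) : ℤ) + 1) = 0)).card := by
      intro c
      rw [monoCount_eq]
      congr 1
      apply Finset.filter_congr
      intro x _
      constructor
      · exact fun h => h.1
      · intro h
        refine ⟨h, ?_⟩
        have h01 : x 0 = x 1 := by
          rw [Fin.sum_univ_two] at h hsum
          apply Fin.ext
          rcases hs 0 with h0 | h0
          · rw [h0] at h hsum
            have h1 : s 1 = -1 := by omega
            rw [h1] at h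
            omega
          · rw [h0] at h hsum
            have h1 : s 1 = 1 := by omega
            rw [h1] at h
            omega
        intro i j
        fin_cases i <;> fin_cases j <;> simp [h01]
    have hexp : expectedMono s n r = (monoCount s c : ℝ) := by
      unfold expectedMono
      simp only [hall]
      rw [Finset.sum_const, Finset.card_univ, Fintype.card_fun, Fintype.card_fin, Fintype.card_fin,
        nsmul_eq_mul]
      push_cast
      rw [mul_comm, mul_div_assoc, div_self (by positivity), mul_one]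
    rw [hexp]
    have : (0 : ℝ) ≤ (monoCount s c : ℝ) := by positivity
    nlinarith
  · obtain ⟨k', rfl⟩ : ∃ k', k = k' + 1 := ⟨k - 1, by omega⟩
    intro ε hε
    -- threshold
    obtain ⟨N, hN⟩ := exists_nat_gt (((k' + 1 : ℝ) ^ 2 * (k' + 2) * (r : ℝ) ^ k') / ε)
    refine ⟨N + 1, fun n hn c => ?_⟩
    have hn1 : 1 ≤ n := by omega
    have hnpos : (0 : ℝ) < n := by exact_mod_cast hn1
    set S : ℝ := ((Finset.univ.filter (fun x : Fin (k' + 1) → Fin n =>
        ∑ i, s i * (((x i : ℕ) : ℤ) + 1) = 0)).card : ℝ) with hS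
    set D : ℝ := ((Finset.univ.filter (fun x : Fin (k' + 1) → Fin n =>
        ∑ i, s i * (((x i : ℕ) : ℤ) + 1) = 0 ∧ ¬ Function.Injective x)).card : ℝ) with hD
    have hM : ∀ c : Fin n → Fin r, S / (r : ℝ) ^ k' ≤ (monoCount s c : ℝ) := by
      intro c
      rw [div_le_iff₀ (by positivity), monoCount_eq, hS]
      have := Pool.Agent.Helper59.sym_ineq (by omega) s hs hsum c
      simp only [Nat.add_sub_cancel] at this
      rw [mul_comm]
      exact_mod_cast this
    have hE := expected_upper (n := n) (r := r) s hr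
    rw [← hS, ← hD] at hE
    have hElow : S / (r : ℝ) ^ k' ≤ expectedMono s n r := by
      unfold expectedMono
      rw [le_div_iff₀ (by positivity)]
      have : ∑ c : Fin n → Fin r, S / (r : ℝ) ^ k' ≤ ∑ c : Fin n → Fin r, (monoCount s c : ℝ) :=
        Finset.sum_le_sum (fun c _ => hM c)
      refine le_trans (le_of_eq ?_) this
      rw [Finset.sum_const, Finset.card_univ, Fintype.card_fun, Fintype.card_fin, Fintype.card_fin,
        nsmul_eq_mul]
      push_cast
      ring
    have hDle : D ≤ ((k' + 1 : ℝ)) ^ 2 * (n : ℝ) ^ (k' - 1) := by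
      have := card_noninj (n := n) s hs0 hk3
      rw [hD]
      have h2 : k' + 1 - 2 = k' - 1 := by omega
      rw [h2] at this
      exact_mod_cast this
    have hSlow : (n : ℝ) ^ k' ≤ (k' + 2) * S := by
      have := card_sol_lower (n := n) s hs hsum
      have h3 : (n : ℝ) ^ (k' + 1) ≤ ((k' + 1) * n + 1) * S := by
        rw [hS]; exact_mod_cast this
      have hS0 : 0 ≤ S := by rw [hS]; positivity
      have h4 : ((k' + 1 : ℝ) * n + 1) * S ≤ n * ((k' + 2) * S) := by
        have : (1 : ℝ) ≤ n := by exact_mod_cast hn1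
        nlinarith
      have h5 : n * (n : ℝ) ^ k' ≤ n * ((k' + 2) * S) := by
        calc n * (n : ℝ) ^ k' = (n : ℝ) ^ (k' + 1) := by ring
          _ ≤ _ := le_trans h3 h4
      exact le_of_mul_le_mul_left h5 hnpos
    -- D ≤ ε * E
    have hDE : D ≤ ε * expectedMono s n r := by
      refine le_trans hDle (le_trans ?_ (mul_le_mul_of_nonneg_left hElow hε.le))
      have hnN : ((k' + 1 : ℝ) ^ 2 * (k' + 2) * (r : ℝ) ^ k') ≤ ε * n := by
        have h6 : ((k' + 1 : ℝ) ^ 2 * (k' + 2) * (r : ℝ) ^ k') / ε ≤ n := by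
          refine le_trans hN.le ?_
          have : N ≤ n := by omega
          exact_mod_cast this
        rw [div_le_iff₀ hε] at h6
        linarith
      have hSr : (n : ℝ) ^ k' / ((k' + 2) * (r : ℝ) ^ k') ≤ S / (r : ℝ) ^ k' := by
        rw [div_le_div_iff₀ (by positivity) (by positivity)]
        have : (0 : ℝ) < (r : ℝ) ^ k' := by positivity
        nlinarith
      refine le_trans ?_ (mul_le_mul_of_nonneg_left hSr hε.le)
      rw [← mul_div_assoc, le_div_iff₀ (by positivity)]
      have hk1 : (n : ℝ) ^ k' = n * (n : ℝ) ^ (k' - 1) := by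
        rw [← pow_succ']
        congr 1
        omega
      rw [hk1]
      have hp : (0 : ℝ) ≤ (n : ℝ) ^ (k' - 1) := by positivity
      calc (k' + 1 : ℝ) ^ 2 * (n : ℝ) ^ (k' - 1) * ((k' + 2) * (r : ℝ) ^ k')
          = ((k' + 1 : ℝ) ^ 2 * (k' + 2) * (r : ℝ) ^ k') * (n : ℝ) ^ (k' - 1) := by ring
        _ ≤ (ε * n) * (n : ℝ) ^ (k' - 1) := mul_le_mul_of_nonneg_right hnN hp
        _ = ε * (n * (n : ℝ) ^ (k' - 1)) := by ring
    have := hM c
    nlinarith

/-- Every equation with coefficients `± d` (`d ≠ 0`) summing to zero, in particular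
`x_1 + ⋯ + x_m = x_{m+1} + ⋯ + x_{2m}`, is `r`-common for every `r ≥ 2`. -/
theorem result {k : ℕ} (hk : 2 ≤ k) (a : Fin k → ℤ) (d : ℤ) (hd : d ≠ 0)
    (ha : ∀ i, a i = d ∨ a i = -d) (hsum : ∑ i, a i = 0) (r : ℕ) (hr : 2 ≤ r) :
    IsCommon r a := by
  classical
  set s : Fin k → ℤ := fun i => if a i = d then 1 else -1 with hs
  have has : ∀ i, a i = d * s i := by
    intro i
    simp only [hs]
    split_ifs with h
    · rw [h]; ring
    · rcases ha i with h' | h'
      · exact absurd h' h
      · rw [h']; ring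
  have hs1 : ∀ i, s i = 1 ∨ s i = -1 := by
    intro i
    simp only [hs]
    split_ifs <;> simp
  have hs2 : ∑ i, s i = 0 := by
    have : d * ∑ i, s i = 0 := by
      rw [Finset.mul_sum, ← hsum]
      exact Finset.sum_congr rfl (fun i _ => (has i).symm)
    exact (mul_eq_zero.1 this).resolve_left hd
  have hsol : ∀ {n : ℕ} (x : Fin k → Fin n), IsSol a x ↔ IsSol s x := by
    intro n x
    unfold IsSol
    have : ∑ i, a i * (((x i : ℕ) : ℤ) + 1) = d * ∑ i, s i * (((x i : ℕ) : ℤ) + 1) := by
      rw [Finset.mul_sum]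
      apply Finset.sum_congr rfl
      intro i _
      rw [has i]; ring
    rw [this, mul_eq_zero, or_iff_right hd]
  have hmc : ∀ {n : ℕ} (c : Fin n → Fin r), monoCount a c = monoCount s c := by
    intro n c
    unfold monoCount
    simp only [hsol]
  have hE : ∀ n : ℕ, expectedMono a n r = expectedMono s n r := by
    intro n
    unfold expectedMono
    simp only [hmc]
  have := isCommon_of_signs s hs1 hs2 hk (by omega : 1 ≤ r)
  intro ε hε
  obtain ⟨N, hN⟩ := this ε hε
  refine ⟨N, fun n hn c => ?_⟩
  rw [hE, hmc]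
  exact hN n hn c

end Pool.Agent.Results.MP_3b56a7_co.SymmetricCommon
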